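import Pool.Agent.Q192.PropANeg

/-!
# MP_b9874d: an operator with property `𝒜` and no non-zero U-frequently recurrent vector
-/

set_option autoImplicit false

open Pool.Agent.Q192.PropA

namespace Pool.Agent.Results.MP_b9874d_an.NoUFrequentlyRecurrentVector

theorem result :
    ∃ (E : Type) (_ : NormedAddCommGroup E) (_ : NormedSpace ℂ E) (_ : CompleteSpace E)
      (T : E →L[ℂ] E),
      PropertyA T ∧ (∀ z : E, IsUFreqRecurrentVector T z → z = 0) ∧ ¬ IsUFreqRecurrent T := by
  refine ⟨X, inferInstance, inferInstance, inferInstance, T, propertyA_T, ?_, ?_⟩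
  · intro z hz
    by_contra hne
    exact not_rec z hne hz
  · intro hd
    -- a non-zero vector
    let y : X := xvec 1 0 ⟨⟨fun n => if n = 0 then 1 else 0, continuous_of_discreteTopology⟩, by
      rw [Filter.cocompact_eq_cofinite]
      refine tendsto_const_nhds.congr' ?_
      have : ∀ᶠ n : ℤ in Filter.cofinite, n ≠ 0 := (Set.finite_singleton (0 : ℤ)).compl_mem_cofinite
      filter_upwards [this] with n hn
      simp [hn]⟩
    have hy : y ≠ 0 := by
      intro h
      have h1 : y 0 = 0 := by rw [h]; rfl
      have h2 : y 0 = 1 := by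
        change xvec 1 0 _ 0 = 1
        rw [xvec_apply]
        unfold xfun res
        simp [div_self (v_pos 0).ne']
      rw [h1] at h2
      exact zero_ne_one h2
    obtain ⟨z, hz1, hz2⟩ := hd.exists_mem_open (isOpen_compl_singleton (x := (0 : X))) ⟨y, hy⟩
    exact not_rec z hz2 hz1

end Pool.Agent.Results.MP_b9874d_an.NoUFrequentlyRecurrentVector
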